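import Pool.Agent.Q58.QLTrans

/-!
# Sign positivity of the Quot zeta function of the `(2,2m)` link singularity

`R = k[[x,y]]/(y(y-x^m))`.  We count, for a finite field `k` with `q` elements, the `R`-submodules
`L ⊆ R^d` with `|R^d/L| = q^n`, i.e. the `k`-points of `Quot_n(R^d)`.

Proof.  Put `O = k[[x]]`, so that `R = O ⊕ O y` and `R^d = O^d ⊕ O^d y`.  A submodule `L` is given
by the projection `N ⊆ O^d` to the first summand, by `K = {g : g y ∈ L} ⊆ O^d` and by an `O`-linear
map `φ : N → O^d/K` with `x^m φ(f) = -f mod K`.  There is such a map iff `N ⊆ K + x^m O^d`, and then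
there are `q^(d c)` of them, `c = dim O^d/(K + x^m O^d)`.  Hence, with `Z = ∑_N t^codim N`,
`Z_{R^d}(t) = Z · ∑_K t^(codim K) (q^d t)^c(K)`.  The map `K ↦ (K : x)` and the number of elements of
its fibres give `Z = 1/(t;q)_d` and
`(t;q)_d² Z_{R^d}(t) = ∑_λ N_λ(q) (q^d t²)^|λ| (t;q)_(d - λ'_m)`,
the sum over the partitions `λ ⊆ (m^d)`, where `N_λ(q)` is the number of submodules of type `λ` of
`(O/x^m)^d`, a product of powers of `q` and Gaussian binomials.
-/

set_option autoImplicit false

open Finset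

namespace Pool.Agent.Results.MP_4a19d5_ag.SignPositivity

/-- The germ `R = k[[x,y]]/(y(y-x^m))`, where `x = X 0` and `y = X 1`. -/
abbrev LinkRing (k : Type) [Field k] (m : ℕ) : Type :=
  MvPowerSeries (Fin 2) k ⧸ Ideal.span
    {(MvPowerSeries.X 1 * (MvPowerSeries.X 1 - MvPowerSeries.X 0 ^ m) : MvPowerSeries (Fin 2) k)}

/-- For a finite field `k` with `q` elements, the number of `k`-points of `Quot_n(R^d)`: the number
of `R`-submodules `L ⊆ R^d` such that `R^d/L` has `q^n` elements, i.e. has dimension `n` over `k`. -/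
noncomputable def quotCount (k : Type) [Field k] [Fintype k] (m d n : ℕ) : ℕ :=
  Nat.card {L : Submodule (LinkRing k m) (Fin d → LinkRing k m) //
    Nat.card ((Fin d → LinkRing k m) ⧸ L) = Fintype.card k ^ n}

/-- `(t;q)_d ^ 2 * ∑_n #Quot_n(R^d)(k) t^n`, a power series in `t` with integer coefficients, where
`q` is the number of elements of `k` and `(t;q)_d = ∏_{i<d} (1 - t q^i)`. -/
noncomputable def numeratorAt (k : Type) [Field k] [Fintype k] (m d : ℕ) : PowerSeries ℤ :=
  (∏ i ∈ range d, (1 - PowerSeries.X * PowerSeries.C ((Fintype.card k : ℤ) ^ i))) ^ 2 *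
    PowerSeries.mk fun n => (quotCount k m d n : ℤ)

/-- `P ∈ ℤ[L][t]` is the numerator of the Quot zeta function of `R^d`: for every finite field `k`
with `q` elements, its value at `L = q` is `(t;q)_d ^ 2 * ∑_n #Quot_n(R^d)(k) t^n`. (The outer
variable of `P` is `t`, the inner variable is `L`.) -/
def IsNumerator (m d : ℕ) (P : Polynomial (Polynomial ℤ)) : Prop :=
  ∀ (k : Type) [Field k] [Fintype k],
    numeratorAt k m d =
      ((P.map (Polynomial.evalRingHom (Fintype.card k : ℤ)) : Polynomial ℤ) : PowerSeries ℤ)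

open Q58QL Polynomial in
theorem exists_numerator (m d : ℕ) :
    IsNumerator (m + 1) d (NP (C X) (-X) d m : Polynomial (Polynomial ℤ)) := by
  intro k _ _
  have h1 : PowerSeries.mk (fun n => (quotCount k (m + 1) d n : ℤ)) = ZL k d (m + 1) := by
    ext n
    rw [PowerSeries.coeff_mk, ZL, PowerSeries.coeff_mk, quotCount,
      ← card_transport (by omega : 1 ≤ m + 1)]
  have h2 : (∏ i ∈ range d, (1 - PowerSeries.X * PowerSeries.C ((Fintype.card k : ℤ) ^ i)))
      = poch (qq k) PowerSeries.X d := by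
    rw [poch]
    apply Finset.prod_congr rfl
    intro i _
    rw [map_pow, mul_comm]
  rw [numeratorAt, h1, h2, main_stab]
  have h3 : ((Polynomial.map (evalRingHom (Fintype.card k : ℤ))
      (NP (C X) (-X) d m : Polynomial (Polynomial ℤ)) : Polynomial ℤ) : PowerSeries ℤ)
      = (Polynomial.coeToPowerSeries.ringHom.comp
        (Polynomial.mapRingHom (evalRingHom (Fintype.card k : ℤ))))
        (NP (C X) (-X) d m : Polynomial (Polynomial ℤ)) := rfl
  rw [h3, map_NP]
  simp [NP]

/-- **Sign positivity.**  For all `m ≥ 1` and `d` there is exactly one polynomial `P ∈ ℤ[L][t]` with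
`P(q,t) = (t;q)_d ^ 2 ∑_n #Quot_n(R^d)(F_q) t^n` for all finite fields `F_q`, and `P(L,-t)` has
nonnegative coefficients. -/
theorem result (m : ℕ) (hm : 1 ≤ m) (d : ℕ) :
    (∃! P : Polynomial (Polynomial ℤ), IsNumerator m d P) ∧
      ∀ P : Polynomial (Polynomial ℤ), IsNumerator m d P →
        ∀ i j : ℕ, 0 ≤ (-1) ^ i * (P.coeff i).coeff j := by
  obtain ⟨m, rfl⟩ : ∃ m', m = m' + 1 := ⟨m - 1, by omega⟩
  -- uniqueness
  have huniq : ∀ P Q : Polynomial (Polynomial ℤ), IsNumerator (m + 1) d P →
      IsNumerator (m + 1) d Q → P = Q := by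
    intro P Q hP hQ
    have h1 : ∀ p : ℕ, p.Prime →
        P.map (Polynomial.evalRingHom (p : ℤ)) = Q.map (Polynomial.evalRingHom (p : ℤ)) := by
      intro p hp
      have : Fact p.Prime := ⟨hp⟩
      have h2 := (hP (ZMod p)).symm.trans (hQ (ZMod p))
      rw [ZMod.card] at h2
      exact Polynomial.coe_injective ℤ h2
    ext1 i
    apply Polynomial.eq_of_infinite_eval_eq
    apply Set.Infinite.mono (s := (fun p : ℕ => (p : ℤ)) '' {p | p.Prime})
    · rintro _ ⟨p, hp, rfl⟩
      have h2 := congrArg (fun R => Polynomial.coeff R i) (h1 p hp)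
      simpa [Polynomial.coeff_map] using h2
    · exact Nat.infinite_setOfPred_prime.image (fun a _ b _ h => by exact_mod_cast h)
  have hex := exists_numerator m d
  refine ⟨⟨_, hex, fun Q hQ => huniq _ _ hQ hex⟩, ?_⟩
  intro P hP i j
  rw [huniq _ _ hP hex]
  -- positivity
  let ψ : Polynomial (Polynomial ℕ) →+* Polynomial (Polynomial ℤ) :=
    (Polynomial.compRingHom (-Polynomial.X)).comp
      (Polynomial.mapRingHom (Polynomial.mapRingHom (Nat.castRingHom ℤ)))
  have h1 : (Q58QL.NP (Polynomial.C Polynomial.X) (-Polynomial.X) d m :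
      Polynomial (Polynomial ℤ)) = ψ (Q58QL.NP (Polynomial.C Polynomial.X) Polynomial.X d m) := by
    have h := Q58QL.map_NP (S := Polynomial (Polynomial ℕ)) (T := Polynomial (Polynomial ℤ)) ψ
      (Polynomial.C Polynomial.X) Polynomial.X d m
    rw [h]
    simp [ψ]
  rw [h1]
  set N := (Q58QL.NP (Polynomial.C Polynomial.X) Polynomial.X d m : Polynomial (Polynomial ℕ))
  have h2 : (ψ N).coeff i = (N.coeff i).map (Nat.castRingHom ℤ) * (-1) ^ i := by
    show ((Polynomial.map (Polynomial.mapRingHom (Nat.castRingHom ℤ)) N).comp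
      (-Polynomial.X)).coeff i = _
    have h3 : (-Polynomial.X : Polynomial (Polynomial ℤ))
        = Polynomial.C (-1) * Polynomial.X := by
      rw [map_neg, map_one]; ring
    rw [h3, Polynomial.comp_C_mul_X_coeff, Polynomial.coeff_map]
    rfl
  have h4 : (-1 : Polynomial ℤ) ^ i = Polynomial.C ((-1) ^ i) := by simp
  rw [h2, h4, Polynomial.coeff_mul_C, Polynomial.coeff_map, mul_comm, mul_assoc, ← mul_pow]
  simp

end Pool.Agent.Results.MP_4a19d5_ag.SignPositivity
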